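import Pool.Agent.H.MP_8f05cb_co.A

namespace Pool.Agent.Results.MP_8f05cb_co.Linear

open Matrix Finset

open Classical in
def PST {n : ℕ} (X : SimpleGraph (Fin n)) : Prop :=
  ∃ (u v : Fin n) (t : ℝ) (γ : ℂ), u ≠ v ∧ ‖γ‖ = 1 ∧
    NormedSpace.exp (((t : ℂ) * Complex.I) • X.adjMatrix ℂ) *ᵥ Pi.single u 1 = γ • Pi.single v 1

noncomputable def m (n : ℕ) : ℕ∞ :=
  ⨅ X : {X : SimpleGraph (Fin n) // X.Connected ∧ PST X}, (X.1.edgeSet.ncard : ℕ∞)

open Pool.Agent.H.MP_8f05cb_co.A Pool.Agent.H.MP_d93d44_co.A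

theorem exp_sub {α β : Type} [Fintype α] [Fintype β] [DecidableEq α] [DecidableEq β] (e : α ≃ β)
    (M : Matrix β β ℂ) : NormedSpace.exp (M.submatrix e e) = (NormedSpace.exp M).submatrix e e := by
  ext u v
  refine (Pi.hasSum.1 (Pi.hasSum.1 (exp_sum _) u) v).unique ?_
  have pw : ∀ j : ℕ, M.submatrix e e ^ j = (M ^ j).submatrix e e := fun j =>
    (map_pow (Matrix.reindexAlgEquiv ℂ ℂ e.symm) M j).symm
  simp only [pw]
  exact Pi.hasSum.1 (Pi.hasSum.1 (exp_sum M) (e u)) (e v)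

theorem build (n k s a : ℕ) (q : Fin k → ℕ) (hk : 0 < k) (ha : 0 < a) (hq : ∀ z, q z ≤ s)
    (hQ : ∑ z, q z = 2 * (2 * a + 1) ^ 2) (hs : s + 2 * k = 2 * (2 * a + 1) ^ 2 + 2)
    (hn : n = 2 + (k + ∑ z, (s - q z) * (1 + q z))) : m n + 2 ≤ n + k := by
  classical
  have hc : Fintype.card (V (fun z => s - q z) q) = n := by
    rw [Fintype.card_sum, card_T, hn, Fintype.card_bool]
  let e := (Fintype.equivFinOfCardEq hc).symm
  have i := SimpleGraph.Iso.comap e (G (fun z => s - q z) q)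
  have h1 : ((G _ q).comap e).Connected ∧ PST ((G _ q).comap e) := by
    refine ⟨i.connected_iff.2 (conn _ q hk), e.symm (.inl false), e.symm (.inl true),
      Real.pi / √2, -1, by simp, by simp, ?_⟩
    have h := pst (fun z => s - q z) q s a ha (fun z => Nat.sub_add_cancel (hq z)) hQ hs
    have h2 := exp_sub e ((((Real.pi / √2 : ℝ) : ℂ) * Complex.I) •
      (G (fun z => s - q z) q).adjMatrix ℂ)
    funext x
    have := congrFun h (e x)
    rw [mulVec_single_one, col_apply] at this ⊢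
    refine Eq.trans (congrFun (congrFun h2 x) _) ?_
    rw [submatrix_apply, Equiv.apply_symm_apply]
    convert this using 1
    simp [Pi.single_apply, Equiv.eq_symm_apply]
  have h2 : m n ≤ (((G (fun z => s - q z) q).comap e).edgeSet.ncard : ℕ∞) :=
    iInf_le (fun X : {X : SimpleGraph (Fin n) // X.Connected ∧ PST X} =>
      (X.1.edgeSet.ncard : ℕ∞)) ⟨_, h1⟩
  have h3 := edges (fun z => s - q z) q
  rw [← Set.ncard_congr' i.mapEdgeSet, card_T] at h3
  refine (add_le_add_left h2 2).trans ?_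
  exact_mod_cast (by omega)

theorem param (n : ℕ) (c : ℕ) (hc : c ≤ 186) (b : ℕ) (hb : b ≤ 40) (hn : 10 ^ 10 ≤ n)
    (hp : (n + c) % 2 = 0) (hb2 : b % 2 = 0) : ∃ a j : ℕ, 111 ≤ a ∧ j ≤ (a * (a + 1)) ^ 2 ∧
      n + 2 * j + b * (a * (a + 1)) + c = 56 * (a * (a + 1)) ^ 2 := by
  have ex : ∃ a, n + b * (a * (a + 1)) + c ≤ 56 * (a * (a + 1)) ^ 2 := ⟨n, by
    have : n ≤ n * (n + 1) := by nlinarith
    generalize n * (n + 1) = x at *
    nlinarith⟩
  have h1 := Nat.find_spec ex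
  have h2 : 111 ≤ Nat.find ex := by
    by_contra h
    have : Nat.find ex * (Nat.find ex + 1) ≤ 110 * 111 := Nat.mul_le_mul (by omega) (by omega)
    have := Nat.pow_le_pow_left this 2
    omega
  have h3 := Nat.find_min ex (m := Nat.find ex - 1) (by omega)
  generalize Nat.find ex = a at *
  obtain ⟨a, rfl⟩ : ∃ r, a = r + 1 := ⟨a - 1, by omega⟩
  rw [Nat.add_sub_cancel] at h3
  obtain ⟨d, hd⟩ := Nat.exists_eq_add_of_le h1
  obtain ⟨b, rfl⟩ : ∃ r, b = 2 * r := ⟨b / 2, by omega⟩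
  have e : (a + 1) * (a + 1 + 1) = a * (a + 1) + 2 * (a + 1) := by ring
  have l : 110 * (a + 1) ≤ a * (a + 1) := Nat.mul_le_mul_right _ (by omega)
  refine ⟨a + 1, d / 2, h2, ?_, ?_⟩
  · rw [e] at hd ⊢
    generalize a * (a + 1) = x at *
    have : d ≤ 2 * (x + 2 * (a + 1)) ^ 2 := by nlinarith
    omega
  · rw [mul_assoc 2 b] at hd ⊢
    omega

theorem result : ∀ n : ℕ, 10 ^ 10 ≤ n → (n : ℕ∞) ≤ m n + 1 ∧ m n ≤ n + 8 := by
  intro n hn
  constructor
  · rw [m, ENat.iInf_add]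
    refine le_iInf fun X => ?_
    have := X.2.1.card_vert_le_card_edgeSet_add_one
    rw [Nat.card_eq_fintype_card, Fintype.card_fin] at this
    exact_mod_cast this
  · have fin : ∀ k : ℕ, k ≤ 10 → m n + 2 ≤ n + k → m n ≤ n + 8 := fun k hk h => by
      have : m n + 2 ≤ n + 8 + 2 := h.trans (by exact_mod_cast (by omega))
      exact (ENat.add_le_add_iff_right (by simp)).1 this
    have main : ∀ a j : ℕ, j ≤ (a * (a + 1)) ^ 2 → ∃ d1 d2 d3 d4 y1 y2 y3 y4 : ℕ,
        d1 ^ 2 + d2 ^ 2 + d3 ^ 2 + d4 ^ 2 = j ∧ a * (a + 1) = y1 + d1 ∧ a * (a + 1) = y2 + d2 ∧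
        a * (a + 1) = y3 + d3 ∧ a * (a + 1) = y4 + d4 := fun a j hj => by
      obtain ⟨d1, d2, d3, d4, h⟩ := Nat.sum_four_squares j
      have l : ∀ d, d ^ 2 ≤ j → d ≤ a * (a + 1) := fun d e =>
        (Nat.pow_le_pow_iff_left two_ne_zero).1 (e.trans hj)
      have := l d1 (by omega)
      have := l d2 (by omega)
      have := l d3 (by omega)
      have := l d4 (by omega)
      exact ⟨d1, d2, d3, d4, a * (a + 1) - d1, a * (a + 1) - d2, a * (a + 1) - d3,
        a * (a + 1) - d4, h, by omega, by omega, by omega, by omega⟩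
    rcases Nat.mod_two_eq_zero_or_one n with h | h
    · obtain ⟨a, j, ha, hj, e⟩ := param n 186 le_rfl 40 le_rfl hn (by omega) rfl
      obtain ⟨d1, d2, d3, d4, y1, y2, y3, y4, h0, h1, h2, h3, h4⟩ := main a j hj
      have x0 : 111 * 112 ≤ a * (a + 1) := Nat.mul_le_mul ha (by omega)
      have sq : (2 * a + 1) ^ 2 = 4 * (a * (a + 1)) + 1 := by ring
      generalize a * (a + 1) = x at *
      refine fin 10 le_rfl (build n 10 (8 * x - 16) a
        ![x + d1, y1, x + d2, y2, x + d3, y3, x + d4, y4, 2, 0] (by omega) (by omega)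
        (fun z => by fin_cases z <;> simp <;> omega) (by simp [Fin.sum_univ_succ]; omega)
        (by omega) ?_)
      simp only [Fin.sum_univ_succ, Fin.sum_univ_zero, cons_val_zero, cons_val_succ]
      zify [(by omega : 16 ≤ 8 * x), (by omega : x + d1 ≤ 8 * x - 16), (by omega : y1 ≤ 8 * x - 16),
        (by omega : x + d2 ≤ 8 * x - 16), (by omega : y2 ≤ 8 * x - 16),
        (by omega : x + d3 ≤ 8 * x - 16), (by omega : y3 ≤ 8 * x - 16),
        (by omega : x + d4 ≤ 8 * x - 16), (by omega : y4 ≤ 8 * x - 16),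
        (by omega : 2 ≤ 8 * x - 16), (by omega : 0 ≤ 8 * x - 16)] at e h0 h1 h2 h3 h4 ⊢
      grind
    · obtain ⟨a, j, ha, hj, e⟩ := param n 149 (by omega) 32 (by omega) hn (by omega) rfl
      obtain ⟨d1, d2, d3, d4, y1, y2, y3, y4, h0, h1, h2, h3, h4⟩ := main a j hj
      have x0 : 111 * 112 ≤ a * (a + 1) := Nat.mul_le_mul ha (by omega)
      have sq : (2 * a + 1) ^ 2 = 4 * (a * (a + 1)) + 1 := by ring
      generalize a * (a + 1) = x at *
      refine fin 9 (by omega) (build n 9 (8 * x - 14) a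
        ![x + d1, y1, x + d2, y2, x + d3, y3, x + d4, y4, 2] (by omega) (by omega)
        (fun z => by fin_cases z <;> simp <;> omega) (by simp [Fin.sum_univ_succ]; omega)
        (by omega) ?_)
      simp only [Fin.sum_univ_succ, Fin.sum_univ_zero, cons_val_zero, cons_val_succ]
      zify [(by omega : 14 ≤ 8 * x), (by omega : x + d1 ≤ 8 * x - 14), (by omega : y1 ≤ 8 * x - 14),
        (by omega : x + d2 ≤ 8 * x - 14), (by omega : y2 ≤ 8 * x - 14),
        (by omega : x + d3 ≤ 8 * x - 14), (by omega : y3 ≤ 8 * x - 14),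
        (by omega : x + d4 ≤ 8 * x - 14), (by omega : y4 ≤ 8 * x - 14),
        (by omega : 2 ≤ 8 * x - 14)] at e h0 h1 h2 h3 h4 ⊢
      grind

end Pool.Agent.Results.MP_8f05cb_co.Linear
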